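import Pool.Agent.D0H45.TH.StmB
import Pool.Agent.R401.Eng

/-! Module 8 CHEB of project TH: Chebotarev's theorem for closed sets, with the Haar measure. -/

set_option autoImplicit false

namespace Pool.Agent.D0H82.TH

open Module NumberField Filter Topology IsDedekindDomain MeasureTheory
open Pool.Agent.W401.Cheb Pool.Agent.D0H45.TH
open scoped Pointwise

/-- the measure of a union of cosets of an open subgroup -/
theorem meas_cosets {G : Type} [Group G] [TopologicalSpace G] [IsTopologicalGroup G] [CompactSpace G]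
    [MeasurableSpace G] [BorelSpace G] (μ : Measure G) [IsProbabilityMeasure μ]
    [μ.IsMulLeftInvariant] (V : Subgroup G) (hV : IsOpen (V : Set G)) (S : Set (G ⧸ V)) :
    μ.real {x : G | (x : G ⧸ V) ∈ S} = (S.ncard : ℝ) / Nat.card (G ⧸ V) := by
  classical
  have hfin : Finite (G ⧸ V) := Subgroup.quotient_finite_of_isOpen _ hV
  have hc : ∀ q : G ⧸ V, MeasurableSet {x : G | (x : G ⧸ V) = q} ∧
      μ.real {x : G | (x : G ⧸ V) = q} = μ.real (V : Set G) := by
    intro q
    induction q using QuotientGroup.induction_on with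
    | H g =>
    have h1 : {x : G | (x : G ⧸ V) = (g : G ⧸ V)} = (fun x => g⁻¹ * x) ⁻¹' (V : Set G) := by
      ext x
      simp only [Set.mem_ofPred_eq, Set.mem_preimage, SetLike.mem_coe]
      rw [eq_comm, QuotientGroup.eq]
    rw [h1]
    refine ⟨(hV.preimage (continuous_const.mul continuous_id)).measurableSet, ?_⟩
    unfold Measure.real
    rw [measure_preimage_mul]
  have key : ∀ S : Set (G ⧸ V), μ.real {x : G | (x : G ⧸ V) ∈ S} = S.ncard * μ.real (V : Set G) := by
    intro S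
    have hSf : S.Finite := Set.toFinite S
    have h1 : {x : G | (x : G ⧸ V) ∈ S} = ⋃ q ∈ hSf.toFinset, {x : G | (x : G ⧸ V) = q} := by
      ext x
      simp
    rw [h1, measureReal_biUnion_finset]
    · rw [Finset.sum_congr rfl fun q _ => (hc q).2, Finset.sum_const, nsmul_eq_mul,
        Set.ncard_eq_toFinset_card S hSf]
    · intro q _ q' _ hqq
      rw [Function.onFun, Set.disjoint_left]
      intro x hx hx'
      exact hqq (hx.symm.trans hx')
    · intro q _
      exact (hc q).1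
  have hu := key Set.univ
  have h1 : {x : G | (x : G ⧸ V) ∈ (Set.univ : Set (G ⧸ V))} = Set.univ := by
    ext x; simp
  rw [h1, probReal_univ, Set.ncard_univ] at hu
  have h2 : (0 : ℝ) < Nat.card (G ⧸ V) := by exact_mod_cast Nat.card_pos
  rw [key S, eq_div_iff h2.ne']
  calc (S.ncard : ℝ) * μ.real (V : Set G) * Nat.card (G ⧸ V) =
        S.ncard * (Nat.card (G ⧸ V) * μ.real (V : Set G)) := by ring
    _ = _ := by rw [← hu, mul_one]

theorem t_CHEB : S_CHEB := by
  classical
  intro K _ _ _ _ μ _ _ _ Good hcl hconj θ hθ U hUn hUo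
  have hUfin : Finite (GK K ⧸ U) := Subgroup.quotient_finite_of_isOpen _ hUo
  set Z : Set (GK K ⧸ U) := {q : GK K ⧸ U | μ (Good ∩ {x : GK K | (x : GK K ⧸ U) = q}) = 0} with hZ
  set E : Set (GK K) := {x : GK K | (x : GK K ⧸ U) ∈ Z} with hE
  have hEclosed : IsClosed E := by
    have h1 : IsOpen Eᶜ := by
      rw [isOpen_iff_mem_nhds]
      intro x hx
      have h2 : (fun y => x⁻¹ * y) ⁻¹' (U : Set (GK K)) ∈ 𝓝 x := by
        apply (hUo.preimage (continuous_const.mul continuous_id)).mem_nhds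
        simp [U.one_mem]
      refine Filter.mem_of_superset h2 fun y hy hyE => hx ?_
      have h3 : (x : GK K ⧸ U) = (y : GK K ⧸ U) := QuotientGroup.eq.2 hy
      change (x : GK K ⧸ U) ∈ Z
      rw [h3]
      exact hyE
    exact isOpen_compl_iff.1 h1
  have hGE : μ (Good ∩ E) = 0 := by
    have hZf : Z.Finite := Set.toFinite Z
    have h1 : Good ∩ E ⊆ ⋃ q ∈ Z, (Good ∩ {x : GK K | (x : GK K ⧸ U) = q}) := by
      rintro x ⟨hx, hxE⟩
      rw [Set.mem_iUnion₂]
      exact ⟨(x : GK K ⧸ U), hxE, hx, rfl⟩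
    exact measure_mono_null h1 ((measure_biUnion_null_iff hZf.countable).2 fun q hq => hq)
  have hcomp : IsCompact (Good ∩ E) := (hcl.inter hEclosed).isCompact
  have hcard : (0 : ℝ) < Nat.card (GK K ⧸ U) := by exact_mod_cast Nat.card_pos
  -- the main inequality with a small loss
  have main : ∀ ε : ℝ, 0 < ε → (Z.ncard : ℝ) / Nat.card (GK K ⧸ U) ≤ θ + ε := by
    intro ε hε
    obtain ⟨O, hO1, hO2, hO3⟩ := Set.exists_isOpen_lt_of_lt (μ := μ) (Good ∩ E) (ENNReal.ofReal ε)
      (by rw [hGE]; exact ENNReal.ofReal_pos.2 hε)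
    obtain ⟨W, hW1, hW2⟩ := compact_open_separated_mul_right hcomp hO2 hO1
    obtain ⟨s, hs1, hs2, hs3⟩ := mem_nhds_iff.1 hW1
    obtain ⟨N₀, hN₀⟩ := ProfiniteGrp.exist_openNormalSubgroup_sub_open_nhds_of_one
      (hs2.inter hUo) ⟨hs3, U.one_mem⟩
    set N : Subgroup (GK K) := (N₀ : Subgroup (GK K)) with hN
    have hNn : N.Normal := N₀.isNormal'
    have hNo : IsOpen (N : Set (GK K)) := N₀.isOpen'
    have hNs : ∀ u ∈ N, u ∈ s := fun u hu => (hN₀ hu).1
    have hNU : ∀ u ∈ N, u ∈ U := fun u hu => (hN₀ hu).2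
    have hNfin : Finite (GK K ⧸ N) := Subgroup.quotient_finite_of_isOpen _ hNo
    set C : Set (GK K) := {σ | ∀ u ∈ N, σ * u ∉ Good} with hC
    have hC1 : ∀ σ ∈ C, ∀ τ : GK K, τ * σ * τ⁻¹ ∈ C := by
      intro σ hσ τ u hu hG
      refine hσ (τ⁻¹ * u * τ) ?_ ?_
      · have := hNn.conj_mem u hu τ⁻¹
        rwa [inv_inv] at this
      · have h1 := hconj _ hG τ⁻¹
        have h2 : τ⁻¹ * (τ * σ * τ⁻¹ * u) * τ⁻¹⁻¹ = σ * (τ⁻¹ * u * τ) := by group
        rwa [h2] at h1
    have hC2 : ∀ σ ∈ C, ∀ u ∈ N, σ * u ∈ C := by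
      intro σ hσ u hu u' hu'
      rw [mul_assoc]
      exact hσ _ (N.mul_mem hu hu')
    have hcheb := Pool.Agent.Y142.chebK K N hNo C hC1 hC2
    set D : Set (GK K ⧸ N) := (QuotientGroup.mk : GK K → GK K ⧸ N) '' C with hD
    have hle : (D.ncard : ℝ) / Nat.card (GK K ⧸ N) ≤ θ := by
      have h1 : ∃ᶠ M : ℕ in atTop,
          dens (fun v : HeightOneSpectrum (𝓞 K) => ∃ σ ∈ C, IsFrob v σ) M ≤ θ := by
        refine hθ.mono fun M hM => le_trans (Pool.Agent.R401.Eng.dens_le ?_ M) hM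
        rintro v ⟨σ, hσ, hv⟩
        refine ⟨σ, hv, ?_⟩
        have := hσ 1 N.one_mem
        rwa [mul_one] at this
      exact le_of_tendsto_of_frequently hcheb h1
    have hsub : E ⊆ {x : GK K | (x : GK K ⧸ N) ∈ D} ∪ O := by
      intro x hx
      by_cases hxC : x ∈ C
      · exact Or.inl ⟨x, hxC, rfl⟩
      · right
        rw [hC, Set.mem_ofPred_eq] at hxC
        push Not at hxC
        obtain ⟨u, hu, hg⟩ := hxC
        have h1 : x * u ∈ E := by
          have h2 : ((x * u : GK K) : GK K ⧸ U) = (x : GK K ⧸ U) := by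
            rw [eq_comm, QuotientGroup.eq]
            simpa using hNU u hu
          change ((x * u : GK K) : GK K ⧸ U) ∈ Z
          rw [h2]
          exact hx
        have h3 : x = (x * u) * u⁻¹ := by group
        rw [h3]
        exact hW2 (Set.mul_mem_mul ⟨hg, h1⟩ (hs1 (hNs _ (N.inv_mem hu))))
    have hOr : μ.real O ≤ ε := by
      unfold Measure.real
      exact ENNReal.toReal_le_of_le_ofReal hε.le hO3.le
    calc (Z.ncard : ℝ) / Nat.card (GK K ⧸ U) = μ.real E := (meas_cosets μ U hUo Z).symm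
      _ ≤ μ.real ({x : GK K | (x : GK K ⧸ N) ∈ D} ∪ O) := measureReal_mono hsub
      _ ≤ μ.real {x : GK K | (x : GK K ⧸ N) ∈ D} + μ.real O := measureReal_union_le _ _
      _ ≤ θ + ε := by
          rw [meas_cosets μ N hNo D]
          linarith
  have hfinal : (Z.ncard : ℝ) / Nat.card (GK K ⧸ U) ≤ θ := le_of_forall_pos_le_add main
  rwa [div_le_iff₀ hcard] at hfinal

end Pool.Agent.D0H82.TH
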