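import Pool.Agent.D0H45.TH.StmB

/-! Module 11 DEG1 of project TH: places of prime norm with Frobenius elements in an open normal subgroup. -/

set_option autoImplicit false

namespace Pool.Agent.D0H82.TH

open Module NumberField Filter Topology IsDedekindDomain MeasureTheory
open Pool.Agent.W401.Cheb Pool.Agent.D0H45.TH

theorem t_DEG1 : S_DEG1 := by
  intro K _ _ U hUn hUo S hS
  by_contra hcon
  push Not at hcon
  have hfin : Finite (GK K ⧸ U) := Subgroup.quotient_finite_of_isOpen _ hUo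
  have hcheb := Pool.Agent.Y142.chebK K U hUo (U : Set (GK K)) (fun σ hσ τ => hUn.conj_mem σ hσ τ)
    (fun σ hσ u hu => U.mul_mem hσ hu)
  have him : (QuotientGroup.mk : GK K → GK K ⧸ U) '' (U : Set (GK K)) = {1} := by
    ext q
    constructor
    · rintro ⟨x, hx, rfl⟩
      exact (QuotientGroup.eq_one_iff x).2 hx
    · rintro rfl
      exact ⟨1, U.one_mem, rfl⟩
  rw [him, Set.ncard_singleton] at hcheb
  set P : HeightOneSpectrum (𝓞 K) → Prop := fun v => ∃ σ ∈ (U : Set (GK K)), IsFrob v σ with hP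
  set d : ℕ := Module.finrank ℚ K with hd
  have hle : ∀ N : ℕ, dens P N ≤ (S.ncard : ℝ) / (Nat.primeCounting N : ℝ) +
      d * ((Nat.sqrt N + 1 : ℝ) / (Nat.primeCounting N : ℝ)) := by
    intro N
    obtain ⟨R, hR1, hR2⟩ := Pool.Agent.W352.ChAbs.decomp (fun v => P v ∧ v ∉ S) N
    have h0 : ∑ p ∈ pr N, Nat.card {v : HeightOneSpectrum (𝓞 K) //
        Ideal.absNorm v.asIdeal = p ∧ (P v ∧ v ∉ S)} = 0 := by
      refine Finset.sum_eq_zero fun p hp => ?_
      have hpp : p.Prime := (Finset.mem_filter.mp hp).2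
      have : IsEmpty {v : HeightOneSpectrum (𝓞 K) //
          Ideal.absNorm v.asIdeal = p ∧ (P v ∧ v ∉ S)} := by
        refine ⟨fun v => ?_⟩
        obtain ⟨h1, ⟨γ, hγ, hf⟩, h3⟩ := v.2
        exact hcon v.1 h3 (by rw [h1]; exact hpp) γ hγ hf
      exact Nat.card_of_isEmpty
    rw [h0, zero_add] at hR2
    have hfl := Pool.Agent.W352.ChAbs.finite_le (K := K) N
    have hsub : {v : HeightOneSpectrum (𝓞 K) | Ideal.absNorm v.asIdeal ≤ N ∧ P v} ⊆
        S ∪ {v : HeightOneSpectrum (𝓞 K) | Ideal.absNorm v.asIdeal ≤ N ∧ (P v ∧ v ∉ S)} := by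
      rintro v ⟨h1, h2⟩
      by_cases h : v ∈ S
      · exact Or.inl h
      · exact Or.inr ⟨h1, h2, h⟩
    have hcard : Nat.card {v : HeightOneSpectrum (𝓞 K) // Ideal.absNorm v.asIdeal ≤ N ∧ P v} ≤
        S.ncard + R := by
      have h1 := (Set.ncard_le_ncard hsub (hS.union (hfl.subset fun v hv => hv.1))).trans
        (Set.ncard_union_le _ _)
      rw [← hR2]
      exact h1
    unfold dens
    have h2 : ((Nat.card {v : HeightOneSpectrum (𝓞 K) // Ideal.absNorm v.asIdeal ≤ N ∧ P v} : ℕ) : ℝ) ≤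
        S.ncard + d * (Nat.sqrt N + 1) := by
      have h3 : ((Nat.card {v : HeightOneSpectrum (𝓞 K) // Ideal.absNorm v.asIdeal ≤ N ∧ P v} : ℕ) : ℝ) ≤
          ((S.ncard + R : ℕ) : ℝ) := by exact_mod_cast hcard
      have h4 : (R : ℝ) ≤ d * (Nat.sqrt N + 1) := by exact_mod_cast hR1
      push_cast at h3
      linarith
    rw [← mul_div_assoc, ← add_div]
    exact div_le_div_of_nonneg_right h2 (Nat.cast_nonneg _)
  have hlim : Tendsto (fun N : ℕ => (S.ncard : ℝ) / (Nat.primeCounting N : ℝ) +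
      d * ((Nat.sqrt N + 1 : ℝ) / (Nat.primeCounting N : ℝ))) atTop (𝓝 0) := by
    have h1 : Tendsto (fun N : ℕ => (S.ncard : ℝ) / (Nat.primeCounting N : ℝ)) atTop (𝓝 0) :=
      tendsto_const_nhds.div_atTop (tendsto_natCast_atTop_atTop.comp Nat.tendsto_primeCounting)
    have h2 := Pool.Agent.W352.ChAbs.sqrt_div_pi.const_mul (d : ℝ)
    simpa using h1.add h2
  have h5 := le_of_tendsto_of_tendsto' hcheb hlim hle
  have h6 : (0 : ℝ) < Nat.card (GK K ⧸ U) := by exact_mod_cast Nat.card_pos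
  have h7 : 0 < ((1 : ℕ) : ℝ) / (Nat.card (GK K ⧸ U) : ℝ) := by positivity
  linarith

end Pool.Agent.D0H82.TH
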